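import Pool.Agent.X265.AFP.Aut

/-!
# Automorphisms of free products which permute the conjugacy classes of the factors
-/

set_option autoImplicit false

namespace Pool.Agent.X265.AFP

open Monoid Monoid.CoprodI
open Pool.Agent.Y110.FJ Pool.Agent.X176.FJ Pool.Agent.X201.FJ

/-- the semidirect product with the infinite cyclic group -/
abbrev CycExt (P : Type) [Group P] (θ : MulAut P) : Type :=
  P ⋊[zpowersHom (MulAut P) θ] Multiplicative ℤ

theorem c_sup {C : ∀ (G : Type) [Group G], Prop} (hC : ClosedE C) {M A : Type} [Group M] [Group A]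
    (f : A →* M) (hf : Function.Injective f) (g : M) (θ : MulAut A)
    (hθ : ∀ a, g * f a * g⁻¹ = f (θ a)) (h : C (CycExt A θ)) :
    C (f.range ⊔ Subgroup.zpowers g : Subgroup M) := by
  have hz : ∀ (z : ℤ) (a : A), g ^ z * f a * (g ^ z)⁻¹ = f ((θ ^ z) a) := by
    have hn : ∀ (n : ℕ) (a : A), g ^ n * f a * (g ^ n)⁻¹ = f ((θ ^ n) a) := by
      intro n
      induction n with
      | zero => intro a; simp
      | succ n ih =>
        intro a
        rw [pow_succ', pow_succ', MulAut.mul_apply, ← hθ, ← ih]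
        group
    intro z a
    obtain ⟨n, rfl | rfl⟩ := z.eq_nat_or_neg
    · rw [zpow_natCast, zpow_natCast, hn]
    · have h1 := hn n ((θ ^ n)⁻¹ a)
      rw [MulAut.apply_inv_self] at h1
      rw [zpow_neg, zpow_neg, zpow_natCast, zpow_natCast, ← h1]
      have : f ((θ ^ n)⁻¹ a) = (g ^ n)⁻¹ * (g ^ n * f ((θ ^ n)⁻¹ a) * (g ^ n)⁻¹) * (g ^ n)⁻¹⁻¹ := by
        group
      rw [h1] at this ⊢
      exact this.symm
  let Φ : CycExt A θ →* M := SemidirectProduct.lift f (zpowersHom M g) (by
    intro z
    ext a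
    change f ((zpowersHom (MulAut A) θ) z a) = (zpowersHom M g) z * f a * ((zpowersHom M g) z)⁻¹
    rw [zpowersHom_apply, zpowersHom_apply, hz])
  have hΦ : ∀ a z, Φ ⟨a, z⟩ = f a * g ^ (Multiplicative.toAdd z) := by
    intro a z
    change f a * (zpowersHom M g) z = _
    rw [zpowersHom_apply]
  have hr : Φ.range = f.range ⊔ Subgroup.zpowers g := by
    apply le_antisymm
    · rintro _ ⟨⟨a, z⟩, rfl⟩
      rw [hΦ]
      exact Subgroup.mul_mem_sup ⟨a, rfl⟩ ⟨_, rfl⟩
    · apply sup_le
      · rintro _ ⟨a, rfl⟩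
        refine ⟨⟨a, 1⟩, ?_⟩
        rw [hΦ, toAdd_one, zpow_zero, mul_one]
      · rw [Subgroup.zpowers_le]
        refine ⟨⟨1, Multiplicative.ofAdd 1⟩, ?_⟩
        rw [hΦ, map_one, one_mul, toAdd_ofAdd, zpow_one]
  by_cases hinj : Function.Injective Φ
  · rw [← hr]
    exact hC.base.of_injective _ _ (MonoidHom.ofInjective hinj).symm.toMonoidHom
      (MonoidHom.ofInjective hinj).symm.injective h
  · have hA : C A := hC.base.of_injective _ _ (SemidirectProduct.inl (φ := zpowersHom (MulAut A) θ))
      SemidirectProduct.inl_injective h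
    obtain ⟨a, z, hz0, hne⟩ : ∃ (a : A) (z : ℤ), z ≠ 0 ∧ f a * g ^ z = 1 := by
      rw [injective_iff_map_eq_one] at hinj
      push Not at hinj
      obtain ⟨⟨a, z⟩, h1, h2⟩ := hinj
      rw [hΦ] at h1
      refine ⟨a, Multiplicative.toAdd z, ?_, h1⟩
      intro h0
      apply h2
      rw [h0, zpow_zero, mul_one] at h1
      apply SemidirectProduct.ext
      · exact hf (h1.trans (map_one f).symm)
      · exact Multiplicative.toAdd.injective h0
    have hgz : g ^ z ∈ f.range := ⟨a⁻¹, by rw [map_inv]; exact inv_eq_of_mul_eq_one_right hne⟩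
    have hgz' : ∀ k : ℤ, g ^ (z * k) ∈ f.range := by
      intro k
      rw [zpow_mul]
      exact Subgroup.zpow_mem _ hgz k
    let K : Subgroup M := f.range ⊔ Subgroup.zpowers g
    have hle : f.range ≤ K := le_sup_left
    let S : Subgroup K := f.range.subgroupOf K
    have hgK : g ∈ K := Subgroup.mem_sup_right (Subgroup.mem_zpowers g)
    have hfin : Finite (K ⧸ S) := by
      refine Finite.of_surjective (fun j : Fin z.natAbs =>
        (QuotientGroup.mk (⟨g, hgK⟩ ^ (j : ℕ)) : K ⧸ S)) ?_
      intro q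
      induction q using QuotientGroup.induction_on with
      | H k =>
        have hk : (k : M) ∈ Φ.range := by rw [hr]; exact k.2
        obtain ⟨⟨b, w⟩, hw⟩ := hk
        rw [hΦ] at hw
        set w' : ℤ := Multiplicative.toAdd w
        have hpos : 0 < z.natAbs := Int.natAbs_pos.2 hz0
        have hmod : 0 ≤ w' % z := Int.emod_nonneg _ hz0
        refine ⟨⟨(w' % z).toNat, ?_⟩, ?_⟩
        · have := Int.emod_lt_abs w' hz0
          have h2 : ((w' % z).toNat : ℤ) < z.natAbs := by
            rw [Int.toNat_of_nonneg hmod]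
            rwa [Int.natCast_natAbs]
          exact_mod_cast h2
        · rw [QuotientGroup.eq]
          change ((⟨g, hgK⟩ ^ (w' % z).toNat : K) : M)⁻¹ * (k : M) ∈ f.range
          have e1 : ((⟨g, hgK⟩ ^ (w' % z).toNat : K) : M) = g ^ (w' % z) := by
            rw [Subgroup.coe_pow, ← zpow_natCast, Int.toNat_of_nonneg hmod]
          rw [e1, ← hw]
          have e2 : w' = w' % z + z * (w' / z) := (Int.emod_add_mul_ediv w' z).symm
          have e3 : (g ^ (w' % z))⁻¹ * (f b * g ^ w') =
              ((g ^ (-(w' % z))) * f b * (g ^ (-(w' % z)))⁻¹) * g ^ (z * (w' / z)) := by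
            conv_lhs => rw [e2, zpow_add]
            rw [zpow_neg, inv_inv]
            rw [← e2]
            group
          rw [e3, hz]
          exact Subgroup.mul_mem _ ⟨_, rfl⟩ (hgz' _)
    have hSfi : S.FiniteIndex := Subgroup.finiteIndex_of_finite_quotient
    refine hC.base.finiteIndex K S hSfi ?_
    have hSA : C f.range := hC.base.of_injective _ _ (MonoidHom.ofInjective hf).symm.toMonoidHom
      (MonoidHom.ofInjective hf).symm.injective hA
    exact hC.base.of_injective _ _ (Subgroup.subgroupOfEquivOfLe hle).toMonoidHom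
      (Subgroup.subgroupOfEquivOfLe hle).injective hSA

section

variable {ι : Type} {G : ι → Type} [∀ i, Group (G i)]

/-- **automorphisms permuting the conjugacy classes of the factors** -/
theorem c_perm {C : ∀ (G : Type) [Group G], Prop} (hC : ClosedE C) (hFK : FrKer C)
    [Nontrivial ι] [∀ i, Nontrivial (G i)] (H : Subgroup (MulAut (CoprodI G)))
    (hInn : ∀ u : CoprodI G, MulAut.conj u ∈ H)
    (hH : ∀ φ ∈ H, ∀ i, ∃ (j : ι) (u : CoprodI G) (θ : G i ≃* G j), ∀ x, φ (of x) = u * of (θ x) * u⁻¹)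
    (hQ : C (H ⧸ InnIn H)) (hZ : ∀ (i : ι) (θ : MulAut (G i)), C (CycExt (G i) θ)) : C H := by
  let e : CoprodI G →* H := MulAut.conj.codRestrict H hInn
  have he : Function.Injective e := by
    intro a b hab
    exact conj_injective (congrArg Subtype.val hab)
  have hr : e.range = InnIn H := by
    ext φ
    constructor
    · rintro ⟨u, rfl⟩
      exact ⟨u, rfl⟩
    · rintro ⟨u, hu⟩
      exact ⟨u, Subtype.ext hu⟩
  have hn : e.range.Normal := by
    rw [hr]
    infer_instance
  have hconj : ∀ (φ : H) (w : CoprodI G), φ * e w * φ⁻¹ = e (φ.1 w) := by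
    intro φ w
    apply Subtype.ext
    ext x
    change φ.1 (w * φ.1⁻¹ x * w⁻¹) = φ.1 w * x * (φ.1 w)⁻¹
    rw [map_mul, map_mul, map_inv, MulAut.apply_inv_self]
  have hconj' : ∀ (φ : H) (w : CoprodI G), φ⁻¹ * e w * φ = e (φ.1⁻¹ w) := by
    intro φ w
    have := hconj φ⁻¹ w
    rwa [inv_inv] at this
  refine c_free_ext' hC hFK e he ?_ ?_ ?_
  · intro φ v
    obtain ⟨w, u, θ, h⟩ := hH φ.1 φ.2 v
    refine ⟨w, u, θ, fun x => ?_⟩
    rw [hconj, h, map_mul, map_mul, map_inv]
  · exact hC.base.of_injective _ _ (QuotientGroup.quotientMulEquivOfEq hr).toMonoidHom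
      (QuotientGroup.quotientMulEquivOfEq hr).injective hQ
  · intro v φ h1 h2
    -- the automorphism of the factor
    have h3 : ∀ x : G v, ∃ y : G v, φ.1 (of x) = of y := by
      intro x
      obtain ⟨y, hy⟩ := h1 x
      rw [hconj] at hy
      exact ⟨y, he hy⟩
    have h4 : ∀ x : G v, ∃ y : G v, φ.1⁻¹ (of x) = of y := by
      intro x
      obtain ⟨y, hy⟩ := h2 x
      rw [hconj'] at hy
      exact ⟨y, he hy⟩
    let θ : MulAut (G v) :=
      { toFun := fun x => toF v (φ.1 (of x))
        invFun := fun x => toF v (φ.1⁻¹ (of x))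
        left_inv := fun x => by
          obtain ⟨y, hy⟩ := h3 x
          dsimp only
          rw [hy, toF_self, ← hy, MulAut.inv_apply_self, toF_self]
        right_inv := fun x => by
          obtain ⟨y, hy⟩ := h4 x
          dsimp only
          rw [hy, toF_self, ← hy, MulAut.apply_inv_self, toF_self]
        map_mul' := fun x y => by
          rw [map_mul, map_mul, map_mul] }
    refine c_sup hC (e.comp (of (i := v))) (he.comp (CoprodI.of_injective v)) φ θ ?_ (hZ v θ)
    intro x
    change φ * e (of x) * φ⁻¹ = e (of (toF v (φ.1 (of x))))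
    obtain ⟨y, hy⟩ := h3 x
    rw [hconj, hy, toF_self]

end

end Pool.Agent.X265.AFP
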