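import Pool.Agent.X265.AFP.Ext

/-!
# Groups of automorphisms of free products which preserve the conjugacy classes of the factors
-/

set_option autoImplicit false

namespace Pool.Agent.X265.AFP

open Monoid Monoid.CoprodI
open Pool.Agent.Y110.FJ Pool.Agent.X176.FJ Pool.Agent.X201.FJ

section

variable {ι : Type} {G : ι → Type} [∀ i, Group (G i)]

/-- the automorphisms of the free product which map every factor onto a conjugate of the factor -/
def Pure (G : ι → Type) [∀ i, Group (G i)] : Subgroup (MulAut (CoprodI G)) where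
  carrier := {φ | ∀ i, ∃ (u : CoprodI G) (θ : MulAut (G i)), ∀ x, φ (of x) = u * of (θ x) * u⁻¹}
  one_mem' := fun i => ⟨1, 1, fun x => by
    rw [one_mul, inv_one, mul_one]; rfl⟩
  mul_mem' := by
    intro φ ψ hφ hψ i
    obtain ⟨u, θ, h⟩ := hφ i
    obtain ⟨u', θ', h'⟩ := hψ i
    refine ⟨φ u' * u, θ * θ', fun x => ?_⟩
    rw [MulAut.mul_apply, h', map_mul, map_mul, map_inv, h, MulAut.mul_apply]
    group
  inv_mem' := by
    intro φ hφ i
    obtain ⟨u, θ, h⟩ := hφ i
    refine ⟨(φ⁻¹ u)⁻¹, θ⁻¹, fun x => ?_⟩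
    have h1 := h (θ⁻¹ x)
    rw [MulAut.apply_inv_self] at h1
    have h2 := congrArg (φ⁻¹ : MulAut (CoprodI G)) h1
    rw [MulAut.inv_apply_self, map_mul, map_mul, map_inv] at h2
    rw [h2]
    group

/-- the automorphisms in `Pure G` which preserve the factor `G v` -/
def EV (G : ι → Type) [∀ i, Group (G i)] (v : ι) : Subgroup (MulAut (CoprodI G)) where
  carrier := {φ | φ ∈ Pure G ∧ (∀ x : G v, ∃ y : G v, φ (of x) = of y) ∧
    ∀ x : G v, ∃ y : G v, φ⁻¹ (of x) = of y}
  one_mem' := ⟨one_mem _, fun x => ⟨x, rfl⟩, fun x => ⟨x, rfl⟩⟩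
  mul_mem' := by
    rintro φ ψ ⟨h1, h2, h3⟩ ⟨h1', h2', h3'⟩
    refine ⟨mul_mem h1 h1', fun x => ?_, fun x => ?_⟩
    · obtain ⟨y, hy⟩ := h2' x
      obtain ⟨z, hz⟩ := h2 y
      exact ⟨z, by rw [MulAut.mul_apply, hy, hz]⟩
    · obtain ⟨y, hy⟩ := h3 x
      obtain ⟨z, hz⟩ := h3' y
      exact ⟨z, by rw [mul_inv_rev, MulAut.mul_apply, hy, hz]⟩
  inv_mem' := by
    rintro φ ⟨h1, h2, h3⟩
    exact ⟨inv_mem h1, h3, by rw [inv_inv]; exact h2⟩

/-- the restriction to the factor -/
noncomputable def resV (v : ι) : EV G v →* MulAut (G v) where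
  toFun φ :=
    { toFun := fun x => toF v (φ.1 (of x))
      invFun := fun x => toF v (φ.1⁻¹ (of x))
      left_inv := fun x => by
        obtain ⟨y, hy⟩ := φ.2.2.1 x
        dsimp only
        rw [hy, toF_self, ← hy, MulAut.inv_apply_self, toF_self]
      right_inv := fun x => by
        obtain ⟨y, hy⟩ := φ.2.2.2 x
        dsimp only
        rw [hy, toF_self, ← hy, MulAut.apply_inv_self, toF_self]
      map_mul' := fun x y => by
        rw [map_mul, map_mul, map_mul] }
  map_one' := by
    ext x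
    exact toF_self v x
  map_mul' φ ψ := by
    ext x
    change toF v (φ.1 (ψ.1 (of x))) = toF v (φ.1 (of (toF v (ψ.1 (of x)))))
    obtain ⟨y, hy⟩ := ψ.2.2.1 x
    rw [hy, toF_self]

theorem resV_of {v : ι} (φ : EV G v) (x : G v) : φ.1 (of x) = of (resV v φ x) := by
  obtain ⟨y, hy⟩ := φ.2.2.1 x
  change _ = of (toF v (φ.1 (of x)))
  rw [hy, toF_self]

theorem toF_resV {v : ι} (φ : EV G v) (w : CoprodI G) : toF v (φ.1 w) = resV v φ (toF v w) := by
  have h1 : (toF v).comp φ.1.toMonoidHom = (resV v φ).toMonoidHom.comp (toF v) := by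
    apply CoprodI.ext_hom
    intro l
    ext1 x
    change toF v (φ.1 (of x)) = resV v φ (toF v (of x))
    by_cases h : l = v
    · subst h
      rw [resV_of, toF_self, toF_self]
    · obtain ⟨u, θ, hu⟩ := φ.2.1 l
      rw [hu, map_mul, map_mul, toF_ne h, toF_ne h, map_one, map_inv, mul_one, mul_inv_cancel]
  exact DFunLike.congr_fun h1 w

/-- the image of the conjugating element is unique -/
theorem conj_uniq {v j : ι} (hvj : v ≠ j) [Nontrivial (G j)] {φ : MulAut (CoprodI G)}
    {u u' : CoprodI G} {θ θ' : MulAut (G j)} (h : ∀ x, φ (of x) = u * of (θ x) * u⁻¹)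
    (h' : ∀ x, φ (of x) = u' * of (θ' x) * u'⁻¹) : toF v u = toF v u' := by
  obtain ⟨x, hx⟩ := exists_ne (1 : G j)
  have hx' : θ x ≠ 1 := fun h0 => hx ((map_eq_one_iff _ θ.injective).1 h0)
  obtain ⟨z, hz⟩ := self_norm (v := u⁻¹ * u') (y := θ' x) hx' (by
    have : (u⁻¹ * u')⁻¹ * of (θ x) * (u⁻¹ * u') = u'⁻¹ * (u * of (θ x) * u⁻¹) * u' := by group
    rw [this, ← h, h']
    group)
  have h1 := congrArg (toF v) hz
  rw [toF_ne hvj.symm, map_mul, map_inv, inv_mul_eq_one] at h1
  exact h1

/-- the conjugating element -/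
noncomputable def cel {v : ι} (j : ι) (φ : EV G v) : CoprodI G := (φ.2.1 j).choose

theorem cel_spec {v : ι} (j : ι) (φ : EV G v) :
    ∃ θ : MulAut (G j), ∀ x, φ.1 (of x) = cel j φ * of (θ x) * (cel j φ)⁻¹ := (φ.2.1 j).choose_spec

/-- the homomorphism to the holomorph -/
noncomputable def eta {v j : ι} (hvj : v ≠ j) [Nontrivial (G j)] : EV G v →* Hol (G v) where
  toFun φ := ⟨(toF v (cel j φ))⁻¹, resV v φ⟩
  map_one' := by
    apply SemidirectProduct.ext
    · change (toF v (cel j (1 : EV G v)))⁻¹ = 1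
      obtain ⟨θ, h⟩ := cel_spec j (1 : EV G v)
      rw [conj_uniq hvj h (u' := 1) (θ' := 1) (fun x => by
        rw [one_mul, inv_one, mul_one]; rfl), map_one, inv_one]
    · exact map_one _
  map_mul' φ ψ := by
    apply SemidirectProduct.ext
    · change (toF v (cel j (φ * ψ)))⁻¹ = (toF v (cel j φ))⁻¹ * resV v φ (toF v (cel j ψ))⁻¹
      obtain ⟨θ, h⟩ := cel_spec j (φ * ψ)
      obtain ⟨θ1, h1⟩ := cel_spec j φ
      obtain ⟨θ2, h2⟩ := cel_spec j ψ
      rw [conj_uniq hvj h (u' := φ.1 (cel j ψ) * cel j φ) (θ' := θ1 * θ2) (fun x => by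
        change φ.1 (ψ.1 (of x)) = _
        rw [h2, map_mul, map_mul, map_inv, h1, MulAut.mul_apply]
        group), map_mul, toF_resV, mul_inv_rev, map_inv]
    · exact map_mul _ _ _

theorem conj_injective [Nontrivial ι] [∀ i, Nontrivial (G i)] :
    Function.Injective (MulAut.conj : CoprodI G →* MulAut (CoprodI G)) := by
  rw [injective_iff_map_eq_one]
  intro u hu
  obtain ⟨j, k, hjk⟩ := exists_pair_ne ι
  have h1 : ∀ l : ι, ∃ z : G l, u = of z := by
    intro l
    obtain ⟨x, hx⟩ := exists_ne (1 : G l)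
    refine self_norm (y := x) hx ?_
    have h2 : u * of x * u⁻¹ = of x := by
      rw [← MulAut.conj_apply, hu]; rfl
    have h3 : u⁻¹ * of x * u = u⁻¹ * (u * of x * u⁻¹) * u := by rw [h2]
    rw [h3]
    group
  exact eq_one_of_two hjk (h1 j) (h1 k)

/-- the inner automorphisms in `H` -/
def InnIn (H : Subgroup (MulAut (CoprodI G))) : Subgroup H :=
  (MulAut.conj : CoprodI G →* MulAut (CoprodI G)).range.subgroupOf H

instance (H : Subgroup (MulAut (CoprodI G))) : (InnIn H).Normal := by
  have h1 : (MulAut.conj : CoprodI G →* MulAut (CoprodI G)).range.Normal := by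
    refine ⟨?_⟩
    rintro _ ⟨u, rfl⟩ φ
    refine ⟨φ u, ?_⟩
    ext x
    change φ u * x * (φ u)⁻¹ = φ (u * φ⁻¹ x * u⁻¹)
    rw [map_mul, map_mul, map_inv, MulAut.apply_inv_self]
  exact h1.subgroupOf H

/-- **automorphisms of free products, modulo inner automorphisms** -/
theorem c_pure {C : ∀ (G : Type) [Group G], Prop} (hC : ClosedE C) (hFK : FrKer C)
    [Nontrivial ι] [∀ i, Nontrivial (G i)] (H : Subgroup (MulAut (CoprodI G)))
    (hInn : ∀ u : CoprodI G, MulAut.conj u ∈ H) (hH : H ≤ Pure G)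
    (hQ : C (H ⧸ InnIn H)) (hHol : ∀ i, C (Hol (G i))) : C H := by
  let e : CoprodI G →* H := MulAut.conj.codRestrict H hInn
  have he : Function.Injective e := by
    intro a b hab
    exact conj_injective (congrArg Subtype.val hab)
  have hr : e.range = InnIn H := by
    ext φ
    constructor
    · rintro ⟨u, rfl⟩
      exact ⟨u, rfl⟩
    · rintro ⟨u, hu⟩
      exact ⟨u, Subtype.ext hu⟩
  have hn : e.range.Normal := by
    rw [hr]
    infer_instance
  have hconj : ∀ (φ : H) (w : CoprodI G), φ * e w * φ⁻¹ = e (φ.1 w) := by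
    intro φ w
    apply Subtype.ext
    ext x
    change φ.1 (w * φ.1⁻¹ x * w⁻¹) = φ.1 w * x * (φ.1 w)⁻¹
    rw [map_mul, map_mul, map_inv, MulAut.apply_inv_self]
  have hconj' : ∀ (φ : H) (w : CoprodI G), φ⁻¹ * e w * φ = e (φ.1⁻¹ w) := by
    intro φ w
    have := hconj φ⁻¹ w
    rwa [inv_inv] at this
  refine c_free_ext hC hFK e he ?_ ?_ ?_
  · intro φ v
    obtain ⟨u, θ, h⟩ := hH φ.2 v
    refine ⟨u, θ, fun x => ?_⟩
    rw [hconj, h, map_mul, map_mul, map_inv]
  · exact hC.base.of_injective _ _ (QuotientGroup.quotientMulEquivOfEq hr).toMonoidHom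
      (QuotientGroup.quotientMulEquivOfEq hr).injective hQ
  · intro v φ h1 h2
    obtain ⟨j, hj⟩ := exists_ne v
    have hφ : φ.1 ∈ EV G v := by
      refine ⟨hH φ.2, fun x => ?_, fun x => ?_⟩
      · obtain ⟨y, hy⟩ := h1 x
        rw [hconj] at hy
        exact ⟨y, he hy⟩
      · obtain ⟨y, hy⟩ := h2 x
        rw [hconj'] at hy
        exact ⟨y, he hy⟩
    let K : Subgroup H := (e.comp (of (i := v))).range ⊔ Subgroup.zpowers φ
    have hK : ∀ k : K, k.1.1 ∈ EV G v := by
      have hle : K ≤ (EV G v).comap H.subtype := by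
        apply sup_le
        · rintro _ ⟨x, rfl⟩
          refine ⟨hH (e (of x)).2, fun y => ⟨x * y * x⁻¹, ?_⟩, fun y => ⟨x⁻¹ * y * x, ?_⟩⟩
          · change of x * of y * (of x)⁻¹ = _
            simp only [map_mul, map_inv]
          · change (MulAut.conj (of x))⁻¹ (of y) = _
            rw [MulAut.conj_inv_apply]
            simp only [map_mul, map_inv]
        · rw [Subgroup.zpowers_le]
          exact hφ
      exact fun k => hle k.2
    let f : K →* (H ⧸ InnIn H) × Hol (G v) :=
      ((QuotientGroup.mk' (InnIn H)).comp K.subtype).prod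
        ((eta (Ne.symm hj)).comp ((H.subtype.comp K.subtype).codRestrict (EV G v) hK))
    refine hC.base.of_injective _ _ f ?_ (hC.base.prod _ _ hQ (hHol v))
    rw [injective_iff_map_eq_one]
    intro k hk
    have hk1 : (QuotientGroup.mk' (InnIn H)) k.1 = 1 := congrArg Prod.fst hk
    have hk2 : eta (Ne.symm hj) ⟨k.1.1, hK k⟩ = 1 := congrArg Prod.snd hk
    rw [QuotientGroup.mk'_apply, QuotientGroup.eq_one_iff] at hk1
    obtain ⟨u, hu⟩ := hk1
    change MulAut.conj u = k.1.1 at hu
    -- `u` is in the factor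
    obtain ⟨z, hz⟩ : ∃ z : G v, u = of z := by
      obtain ⟨x, hx⟩ := exists_ne (1 : G v)
      obtain ⟨y, hy⟩ := (hK k).2.1 x
      rw [← hu, MulAut.conj_apply] at hy
      obtain ⟨z, hz⟩ := self_norm (v := u⁻¹) (y := y) hx (by rw [inv_inv, hy])
      exact ⟨z⁻¹, by rw [map_inv, ← hz, inv_inv]⟩
    have hz1 : z = 1 := by
      have h3 := congrArg SemidirectProduct.left hk2
      change (toF v (cel j (⟨k.1.1, hK k⟩ : EV G v)))⁻¹ = 1 at h3
      obtain ⟨θ, h4⟩ := cel_spec j (⟨k.1.1, hK k⟩ : EV G v)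
      rw [conj_uniq (Ne.symm hj) h4 (u' := of z) (θ' := 1) (fun x => by
        change k.1.1 (of x) = _
        rw [← hu, hz]; rfl), toF_self] at h3
      exact inv_eq_one.1 h3
    apply Subtype.ext
    apply Subtype.ext
    rw [← hu, hz, hz1, map_one, map_one]
    rfl

end

/-! ## three factors -/

section three

variable {G : Fin 3 → Type} [∀ i, Group (G i)]

/-- the group generated by the partial conjugations and the automorphisms of the factors -/
def Aut3 (G : Fin 3 → Type) [∀ i, Group (G i)] : Subgroup (MulAut (CoprodI G)) :=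
  Subgroup.closure ({φ | ∃ (i j : Fin 3) (h : i ≠ j) (g : G i), φ = pc h g} ∪ Set.range (fa (G := G)))

theorem pc_mem {i j : Fin 3} (h : i ≠ j) (g : G i) : pc h g ∈ Aut3 G :=
  Subgroup.subset_closure (Or.inl ⟨i, j, h, g, rfl⟩)

theorem fa_mem (θ : ∀ i, MulAut (G i)) : fa θ ∈ Aut3 G :=
  Subgroup.subset_closure (Or.inr ⟨θ, rfl⟩)

theorem pc_pure {i j : Fin 3} (h : i ≠ j) (g : G i) : pc h g ∈ Pure G := by
  intro l
  by_cases hl : l = j
  · subst hl
    refine ⟨(of g)⁻¹, 1, fun x => ?_⟩
    rw [pc_self, inv_inv]; rfl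
  · exact ⟨1, 1, fun x => by rw [pc_ne _ hl, one_mul, inv_one, mul_one]; rfl⟩

theorem fa_pure (θ : ∀ i, MulAut (G i)) : fa θ ∈ Pure G :=
  fun l => ⟨1, θ l, fun x => by rw [fa_of, one_mul, inv_one, mul_one]⟩

theorem aut3_pure : Aut3 G ≤ Pure G := by
  rw [Aut3, Subgroup.closure_le]
  rintro φ (⟨i, j, h, g, rfl⟩ | ⟨θ, rfl⟩)
  · exact pc_pure h g
  · exact fa_pure θ

/-- the automorphism of one factor -/
noncomputable def one1 (i : Fin 3) (θ : MulAut (G i)) : ∀ l, MulAut (G l) := Function.update 1 i θ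

theorem pc_two (i : Fin 3) (g : G i) : pc (nx2 i) g =
    (pc (nx i) g)⁻¹ * (MulAut.conj (of g)⁻¹ * fa (one1 i (MulAut.conj g))) := by
  rw [eq_inv_mul_iff_mul_eq]
  apply aut_ext
  intro l x
  rw [MulAut.mul_apply, MulAut.mul_apply, fa_of]
  have h3 : l = i ∨ l = i + 1 ∨ l = i + 2 := by
    clear x
    revert l i
    intro i g l
    clear g
    revert l i
    decide
  rcases h3 with rfl | rfl | rfl
  · rw [pc_ne _ (nx2 l), pc_ne _ (nx l), one1, Function.update_self]
    change of x = (of g)⁻¹ * of (g * x * g⁻¹) * (of g)⁻¹⁻¹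
    simp only [map_mul, map_inv]
    group
  · rw [pc_ne _ (nx21 i).symm, pc_self, one1, Function.update_of_ne (nx i).symm, MulAut.conj_apply,
      inv_inv]
    rfl
  · rw [pc_self, map_mul, map_mul, map_inv, pc_ne _ (nx i), pc_ne _ (nx21 i), one1,
      Function.update_of_ne (nx2 i).symm, MulAut.conj_apply, inv_inv]
    rfl

theorem psi_mem (d : DG G) : Psi d ∈ Aut3 G := by
  rw [Psi_apply]
  refine mul_mem ?_ (fa_mem _)
  induction d.left using CoprodI.induction_on with
  | one => rw [map_one]; exact one_mem _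
  | of i g => rw [Th_of]; exact pc_mem _ _
  | mul x y hx hy => rw [map_mul]; exact mul_mem hx hy

theorem conj_mem (u : CoprodI G) : MulAut.conj u ∈ Aut3 G := by
  induction u using CoprodI.induction_on with
  | one => rw [map_one]; exact one_mem _
  | of i g =>
    have h := pc_two i g
    have h2 : MulAut.conj (of g) = fa (one1 i (MulAut.conj g)) * (pc (nx2 i) g)⁻¹ * (pc (nx i) g)⁻¹ := by
      rw [h, map_inv]
      group
    rw [h2]
    exact mul_mem (mul_mem (fa_mem _) (inv_mem (pc_mem _ _))) (inv_mem (pc_mem _ _))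
  | mul x y hx hy => rw [map_mul]; exact mul_mem hx hy

theorem conj_comm (φ : MulAut (CoprodI G)) (u : CoprodI G) :
    MulAut.conj u * φ = φ * MulAut.conj (φ⁻¹ u) := by
  ext x
  change u * φ x * u⁻¹ = φ (φ⁻¹ u * x * (φ⁻¹ u)⁻¹)
  rw [map_mul, map_mul, map_inv, MulAut.apply_inv_self]

/-- normal form of the elements -/
theorem exists_form (φ : MulAut (CoprodI G)) (h : φ ∈ Aut3 G) :
    ∃ (d : DG G) (u : CoprodI G), φ = Psi d * MulAut.conj u := by
  induction h using Subgroup.closure_induction with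
  | mem φ h =>
    rcases h with ⟨i, j, h, g, rfl⟩ | ⟨θ, rfl⟩
    · have hj : j = i + 1 ∨ j = i + 2 := by
        clear g
        revert i j
        decide
      rcases hj with rfl | rfl
      · refine ⟨SemidirectProduct.inl (of g), 1, ?_⟩
        rw [map_one, mul_one, Psi_apply, SemidirectProduct.left_inl, SemidirectProduct.right_inl,
          map_one, mul_one, Th_of]
      · refine ⟨SemidirectProduct.inl (of g)⁻¹ * SemidirectProduct.inr (one1 i (MulAut.conj g)),
          (fa (one1 i (MulAut.conj g)))⁻¹ (of g)⁻¹, ?_⟩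
        have e := pc_two i g
        have hTh : Th (of g)⁻¹ = (pc (nx i) g)⁻¹ := by rw [map_inv, Th_of]
        rw [conj_comm, ← mul_assoc] at e
        rw [e, map_mul, Psi_apply, Psi_apply, SemidirectProduct.left_inl, SemidirectProduct.right_inl,
          SemidirectProduct.left_inr, SemidirectProduct.right_inr, map_one, map_one, mul_one, one_mul,
          hTh]
    · refine ⟨SemidirectProduct.inr θ, 1, ?_⟩
      rw [map_one, mul_one, Psi_apply, SemidirectProduct.left_inr, SemidirectProduct.right_inr,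
        map_one, one_mul]
  | one => exact ⟨1, 1, by rw [map_one, map_one, mul_one]⟩
  | mul φ ψ _ _ h1 h2 =>
    obtain ⟨d, u, rfl⟩ := h1
    obtain ⟨d', u', rfl⟩ := h2
    refine ⟨d * d', (Psi d')⁻¹ u * u', ?_⟩
    rw [map_mul, map_mul, mul_assoc, mul_assoc, ← mul_assoc (MulAut.conj u), conj_comm, mul_assoc]
  | inv φ _ h =>
    obtain ⟨d, u, rfl⟩ := h
    refine ⟨d⁻¹, Psi d u⁻¹, ?_⟩
    rw [mul_inv_rev, ← map_inv, ← map_inv, conj_comm, map_inv, inv_inv]

/-- **automorphisms of free products of three groups** -/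
theorem c_aut3 {C : ∀ (G : Type) [Group G], Prop} (hC : ClosedE C) (hFK : FrKer C)
    [∀ i, Nontrivial (G i)] : C (Aut3 G) ↔ ∀ i, C (Hol (G i)) := by
  have hinj : Function.Injective (Psi.codRestrict (Aut3 G) psi_mem) := by
    rw [injective_iff_map_eq_one]
    intro d hd
    exact (psi_inner d 1 (by rw [map_one]; exact congrArg Subtype.val hd)).1
  constructor
  · intro h i
    have h1 : C (DG G) := hC.base.of_injective _ _ _ hinj h
    -- the holomorph of the factor
    let f : Hol (G i) →* DG G :=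
      SemidirectProduct.map of (MonoidHom.mulSingle (fun l => MulAut (G l)) i) (by
        intro θ
        ext x
        change of (θ x) = fa (Pi.mulSingle i θ) (of x)
        rw [fa_of, Pi.mulSingle_eq_same])
    refine hC.base.of_injective _ _ f ?_ h1
    intro a b hab
    apply SemidirectProduct.ext
    · have h2 := congrArg SemidirectProduct.left hab
      exact of_inj h2
    · have h2 := congrFun (congrArg SemidirectProduct.right hab) i
      change (Pi.mulSingle i a.right : ∀ l, MulAut (G l)) i = (Pi.mulSingle i b.right : ∀ l, MulAut (G l)) i at h2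
      rwa [Pi.mulSingle_eq_same, Pi.mulSingle_eq_same] at h2
  · intro h
    refine c_pure hC hFK (Aut3 G) conj_mem aut3_pure ?_ h
    have h1 : C (DG G) := c_DG hC hFK h
    let f : DG G →* (Aut3 G ⧸ InnIn (Aut3 G)) :=
      (QuotientGroup.mk' (InnIn (Aut3 G))).comp (Psi.codRestrict (Aut3 G) psi_mem)
    have hf : Function.Bijective f := by
      constructor
      · rw [injective_iff_map_eq_one]
        intro d hd
        have hd' : (QuotientGroup.mk' (InnIn (Aut3 G))) (Psi.codRestrict (Aut3 G) psi_mem d) = 1 := hd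
        rw [QuotientGroup.mk'_apply, QuotientGroup.eq_one_iff] at hd'
        obtain ⟨u, hu⟩ := hd'
        exact (psi_inner d u hu.symm).1
      · intro q
        induction q using QuotientGroup.induction_on with
        | H φ =>
          obtain ⟨d, u, h⟩ := exists_form φ.1 φ.2
          refine ⟨d, ?_⟩
          change (QuotientGroup.mk (Psi.codRestrict (Aut3 G) psi_mem d) : Aut3 G ⧸ InnIn (Aut3 G)) =
            QuotientGroup.mk φ
          rw [QuotientGroup.eq]
          refine ⟨u, ?_⟩
          change MulAut.conj u = (Psi d)⁻¹ * φ.1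
          rw [h]
          group
    exact hC.base.of_injective _ _ (MulEquiv.ofBijective f hf).symm.toMonoidHom
      (MulEquiv.ofBijective f hf).symm.injective h1

end three

end Pool.Agent.X265.AFP
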