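import Pool.Agent.X265.AFP.Three
import Pool.Agent.X201.FJ.NGPFin

/-!
# Extensions of free products and automorphism groups
-/

set_option autoImplicit false

namespace Pool.Agent.X265.AFP

open Monoid Monoid.CoprodI
open Pool.Agent.Y110.FJ Pool.Agent.X176.FJ Pool.Agent.X201.FJ
open scoped Pointwise

section ext

variable {ι : Type} {G : ι → Type} [∀ i, Group (G i)]

/-- the image of a free product -/
theorem isGP_range {M : Type} [Group M] (e : CoprodI G →* M) (he : Function.Injective e) :
    IsGP (⊥ : SimpleGraph ι) (fun v => (e.rangeRestrict.comp (of (i := v))).range) := by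
  refine ⟨fun u v h => absurd h (by simp), ?_, ?_⟩
  · have h1 : e.rangeRestrict = CoprodI.lift fun v => e.rangeRestrict.comp (of (i := v)) := by
      apply CoprodI.ext_hom
      intro i
      ext1 x
      rw [MonoidHom.comp_apply (CoprodI.lift _), CoprodI.lift_of]
    have h2 : e.rangeRestrict.range = ⊤ := MonoidHom.range_eq_top.2 e.rangeRestrict_surjective
    rw [← h2]
    conv_rhs => rw [h1]
    rw [CoprodI.range_eq_iSup]
  · intro H _ f _
    let cod : ∀ v, G v →* (e.rangeRestrict.comp (of (i := v))).range := fun v =>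
      (e.rangeRestrict.comp (of (i := v))).rangeRestrict
    let F : CoprodI G →* H := CoprodI.lift fun v => (f v).comp (cod v)
    let E : CoprodI G ≃* e.range := MonoidHom.ofInjective he
    refine ⟨F.comp E.symm.toMonoidHom, ?_⟩
    rintro v ⟨_, x, rfl⟩
    change F (E.symm (e.rangeRestrict (of x))) = _
    have h3 : E.symm (e.rangeRestrict (of x)) = of x := by
      rw [MulEquiv.symm_apply_eq]
      rfl
    rw [h3]
    change CoprodI.lift _ (of x) = _
    rw [CoprodI.lift_of]
    rfl

/-- **extensions of free products** -/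
theorem c_free_ext' {C : ∀ (G : Type) [Group G], Prop} (hC : ClosedE C) (hFK : FrKer C) {M : Type}
    [Group M] (e : CoprodI G →* M) (he : Function.Injective e) [hn : e.range.Normal]
    (hperm : ∀ (g : M) (v : ι), ∃ (w : ι) (u : CoprodI G) (θ : G v ≃* G w), ∀ x : G v,
      g * e (of x) * g⁻¹ = e u * e (of (θ x)) * (e u)⁻¹)
    (hQ : C (M ⧸ e.range))
    (hv : ∀ (v : ι) (g : M), (∀ x : G v, ∃ y : G v, g * e (of x) * g⁻¹ = e (of y)) →
      (∀ x : G v, ∃ y : G v, g⁻¹ * e (of x) * g = e (of y)) →
      C ((e.comp (of (i := v))).range ⊔ Subgroup.zpowers g : Subgroup M)) : C M := by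
  have hmap : ∀ v, ((e.rangeRestrict.comp (of (i := v))).range).map e.range.subtype =
      (e.comp (of (i := v))).range := by
    intro v
    rw [MonoidHom.map_range]
    rfl
  refine ngp hC hFK e.range ⊥ _ (isGP_range e he) ?_ (Or.inr ⟨1, fun _ => 0, ?_, ?_⟩) hQ ?_
  · intro g v
    obtain ⟨w, u, θ, h⟩ := hperm g v
    refine ⟨w, ⟨e u, u, rfl⟩, ?_⟩
    rw [hmap, hmap]
    ext x
    rw [mem_cs, mem_cs]
    constructor
    · rintro ⟨y, hy⟩
      refine ⟨θ y, ?_⟩
      change e (of (θ y)) = (e u)⁻¹ * x * e u
      change e (of y) = g⁻¹ * x * g at hy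
      have h1 := h y
      rw [hy] at h1
      have h2 : x = e u * e (of (θ y)) * (e u)⁻¹ := by
        rw [← h1]
        group
      rw [h2]
      group
    · rintro ⟨y, hy⟩
      refine ⟨θ.symm y, ?_⟩
      change e (of (θ.symm y)) = g⁻¹ * x * g
      change e (of y) = (e u)⁻¹ * x * e u at hy
      have h1 := h (θ.symm y)
      rw [MulEquiv.apply_symm_apply, hy] at h1
      have h2 : x = g * e (of (θ.symm y)) * g⁻¹ := by
        rw [h1]
        group
      rw [h2]
      group
  · intro u v h
    exact absurd h (by simp)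
  · intro u v g _ _
    rfl
  · intro v g hg
    rw [hmap] at hg ⊢
    refine hv v g ?_ ?_
    · intro x
      have h1 : g * e (of x) * g⁻¹ ∈ MulAut.conj g • (e.comp (of (i := v))).range := by
        rw [mem_cs]
        refine ⟨x, ?_⟩
        change e (of x) = _
        group
      rw [hg] at h1
      obtain ⟨y, hy⟩ := h1
      exact ⟨y, hy.symm⟩
    · intro x
      have h1 : e (of x) ∈ MulAut.conj g • (e.comp (of (i := v))).range := by
        rw [hg]
        exact ⟨x, rfl⟩
      rw [mem_cs] at h1
      obtain ⟨y, hy⟩ := h1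
      exact ⟨y, hy.symm⟩

/-- extensions of free products, the factors are not permuted -/
theorem c_free_ext {C : ∀ (G : Type) [Group G], Prop} (hC : ClosedE C) (hFK : FrKer C) {M : Type}
    [Group M] (e : CoprodI G →* M) (he : Function.Injective e) [hn : e.range.Normal]
    (hperm : ∀ (g : M) (v : ι), ∃ (u : CoprodI G) (θ : MulAut (G v)), ∀ x : G v,
      g * e (of x) * g⁻¹ = e u * e (of (θ x)) * (e u)⁻¹)
    (hQ : C (M ⧸ e.range))
    (hv : ∀ (v : ι) (g : M), (∀ x : G v, ∃ y : G v, g * e (of x) * g⁻¹ = e (of y)) →
      (∀ x : G v, ∃ y : G v, g⁻¹ * e (of x) * g = e (of y)) →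
      C ((e.comp (of (i := v))).range ⊔ Subgroup.zpowers g : Subgroup M)) : C M :=
  c_free_ext' hC hFK e he (fun g v => by
    obtain ⟨u, θ, h⟩ := hperm g v
    exact ⟨v, u, θ, h⟩) hQ hv

end ext

/-! ## the semidirect product for three factors -/

section three

variable {G : Fin 3 → Type} [∀ i, Group (G i)]

/-- the homomorphism to the holomorphs -/
noncomputable def kap (G : Fin 3 → Type) [∀ i, Group (G i)] :
    DG G →* (∀ l, Hol (G l)) where
  toFun d l := ⟨toF l d.left, d.right l⟩
  map_one' := by
    funext l
    apply SemidirectProduct.ext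
    · change toF l (1 : CoprodI G) = 1
      rw [map_one]
    · rfl
  map_mul' d d' := by
    funext l
    apply SemidirectProduct.ext
    · change toF l (d.left * fa d.right d'.left) = toF l d.left * d.right l (toF l d'.left)
      rw [map_mul, toF_fa]
    · rfl

theorem c_pi3 {C : ∀ (G : Type) [Group G], Prop} (hC : ClosedE C) {A : Fin 3 → Type}
    [∀ i, Group (A i)] (h : ∀ i, C (A i)) : C (∀ i, A i) := by
  refine hC.base.of_injective _ (A 0 × A 1 × A 2)
    { toFun := fun f => (f 0, f 1, f 2)
      map_one' := rfl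
      map_mul' := fun _ _ => rfl } ?_ (hC.base.prod _ _ (h 0) (hC.base.prod _ _ (h 1) (h 2)))
  intro f g hfg
  funext i
  have h0 : f 0 = g 0 := congrArg Prod.fst hfg
  have h1 : f 1 = g 1 := congrArg (fun p => p.2.1) hfg
  have h2 : f 2 = g 2 := congrArg (fun p => p.2.2) hfg
  fin_cases i
  · exact h0
  · exact h1
  · exact h2

/-- the elements whose left part is in `G v` -/
def DV (G : Fin 3 → Type) [∀ i, Group (G i)] (v : Fin 3) : Subgroup (DG G) where
  carrier := {d | ∃ z : G v, d.left = of z}
  one_mem' := ⟨1, by rw [map_one]; rfl⟩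
  mul_mem' := by
    rintro a b ⟨z, hz⟩ ⟨z', hz'⟩
    refine ⟨z * a.right v z', ?_⟩
    rw [SemidirectProduct.mul_left, hz, hz', fa_of, map_mul]
  inv_mem' := by
    rintro a ⟨z, hz⟩
    refine ⟨a.right⁻¹ v z⁻¹, ?_⟩
    rw [SemidirectProduct.inv_left, hz, ← map_inv, fa_of]

theorem c_DG {C : ∀ (G : Type) [Group G], Prop} (hC : ClosedE C) (hFK : FrKer C)
    [∀ i, Nontrivial (G i)] (h : ∀ i, C (Hol (G i))) : C (DG G) := by
  have hrange : (SemidirectProduct.inl (φ := fa (G := G))).range =
      (SemidirectProduct.rightHom (φ := fa (G := G))).ker :=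
    SemidirectProduct.range_inl_eq_ker_rightHom
  have hn : (SemidirectProduct.inl (φ := fa (G := G))).range.Normal := by
    rw [hrange]
    infer_instance
  have hA : C (∀ i, MulAut (G i)) := by
    apply c_pi3 hC
    intro i
    exact hC.base.of_injective _ _ (SemidirectProduct.inr (φ := MonoidHom.id (MulAut (G i))))
      SemidirectProduct.inr_injective (h i)
  have hinl : ∀ (d : DG G) (v : Fin 3) (x : G v), d * SemidirectProduct.inl (of x) * d⁻¹ =
      SemidirectProduct.inl (d.left * of (d.right v x) * d.left⁻¹) := by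
    intro d v x
    have e : d = SemidirectProduct.inl d.left * SemidirectProduct.inr d.right :=
      (SemidirectProduct.inl_left_mul_inr_right d).symm
    have e2 : SemidirectProduct.inr d.right * SemidirectProduct.inl (of x) *
        (SemidirectProduct.inr d.right)⁻¹ = (SemidirectProduct.inl (of (d.right v x)) : DG G) := by
      rw [← map_inv, ← SemidirectProduct.inl_aut, fa_of]
    calc d * SemidirectProduct.inl (of x) * d⁻¹ = SemidirectProduct.inl d.left *
          (SemidirectProduct.inr d.right * SemidirectProduct.inl (of x) *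
            (SemidirectProduct.inr d.right)⁻¹) * (SemidirectProduct.inl d.left)⁻¹ := by
          conv_lhs => rw [e]
          group
      _ = _ := by rw [e2, map_mul, map_mul, map_inv]
  refine c_free_ext hC hFK (SemidirectProduct.inl (φ := fa (G := G)))
    SemidirectProduct.inl_injective ?_ ?_ ?_
  · intro d v
    refine ⟨d.left, d.right v, fun x => ?_⟩
    rw [hinl, map_mul, map_mul, map_inv]
  · refine hC.base.of_injective _ _ (QuotientGroup.lift _
      (SemidirectProduct.rightHom (φ := fa (G := G))) (by
        intro x hx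
        rw [hrange] at hx
        exact hx)) ?_ hA
    rw [injective_iff_map_eq_one]
    intro q
    induction q using QuotientGroup.induction_on with
    | H d =>
      intro hd
      rw [QuotientGroup.lift_mk] at hd
      rw [QuotientGroup.eq_one_iff, hrange]
      exact hd
  · intro v g hg _
    have hgv : g ∈ DV G v := by
      obtain ⟨x, hx⟩ := exists_ne (1 : G v)
      obtain ⟨y, hy⟩ := hg x
      rw [hinl] at hy
      have h2 := SemidirectProduct.inl_injective hy
      have hx' : g.right v x ≠ 1 := by
        intro h0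
        exact hx ((map_eq_one_iff _ (g.right v).injective).1 h0)
      obtain ⟨z, hz⟩ := self_norm (v := g.left⁻¹) (y := y) hx' (by rw [inv_inv, h2])
      exact ⟨z⁻¹, by rw [map_inv, ← hz, inv_inv]⟩
    have hle : (((SemidirectProduct.inl (φ := fa (G := G))).comp (of (i := v))).range ⊔
        Subgroup.zpowers g : Subgroup (DG G)) ≤ DV G v := by
      apply sup_le
      · rintro _ ⟨x, rfl⟩
        exact ⟨x, rfl⟩
      · rw [Subgroup.zpowers_le]
        exact hgv
    refine hC.base.of_injective _ _ ((kap G).comp (Subgroup.subtype _)) ?_ (c_pi3 hC h)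
    intro a b hab
    obtain ⟨z, hz⟩ := hle a.2
    obtain ⟨z', hz'⟩ := hle b.2
    apply Subtype.ext
    have h1 : ∀ l, (kap G a.1) l = (kap G b.1) l := fun l => congrFun hab l
    apply SemidirectProduct.ext
    · have h2 := congrArg SemidirectProduct.left (h1 v)
      change toF v a.1.left = toF v b.1.left at h2
      rw [hz, hz', toF_self, toF_self] at h2
      rw [hz, hz', h2]
    · funext l
      exact congrArg SemidirectProduct.right (h1 l)

end three

end Pool.Agent.X265.AFP
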