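import Pool.Agent.X265.AFP.Words

/-!
# Partial conjugations and factor automorphisms of free products
-/

set_option autoImplicit false

namespace Pool.Agent.X265.AFP

open Monoid Monoid.CoprodI

variable {ι : Type} {G : ι → Type} [∀ i, Group (G i)]

open Classical in
/-- the endomorphism of the free product which conjugates the factor `G j` with `a⁻¹` and is the identity on
the other factors -/
noncomputable def pcE (j : ι) (a : CoprodI G) : CoprodI G →* CoprodI G :=
  CoprodI.lift fun l => if l = j then (MulAut.conj a⁻¹).toMonoidHom.comp of else of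

theorem pcE_self (j : ι) (a : CoprodI G) (x : G j) : pcE j a (of x) = a⁻¹ * of x * a := by
  rw [pcE, CoprodI.lift_of, if_pos rfl]
  simp

theorem pcE_ne {j l : ι} (h : l ≠ j) (a : CoprodI G) (x : G l) : pcE j a (of x) = of x := by
  rw [pcE, CoprodI.lift_of, if_neg h]

theorem pcE_comp {i j : ι} (hij : i ≠ j) (g h : G i) :
    (pcE j (of g)).comp (pcE j (of h)) = pcE j (of (g * h) : CoprodI G) := by
  apply CoprodI.ext_hom
  intro l
  ext1 x
  change pcE j (of g) (pcE j (of h) (of x)) = pcE j (of (g * h)) (of x)
  by_cases hl : l = j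
  · subst hl
    rw [pcE_self, pcE_self, map_mul, map_mul, map_inv, pcE_self, pcE_ne hij, map_mul]
    group
  · rw [pcE_ne hl, pcE_ne hl, pcE_ne hl]

theorem pcE_one (j : ι) : pcE j (1 : CoprodI G) = MonoidHom.id _ := by
  apply CoprodI.ext_hom
  intro l
  ext1 x
  change pcE j 1 (of x) = of x
  by_cases hl : l = j
  · subst hl
    rw [pcE_self, inv_one, one_mul, mul_one]
  · rw [pcE_ne hl]

theorem pcE_comp_apply {i j : ι} (hij : i ≠ j) (g h : G i) (x : CoprodI G) :
    pcE j (of g) (pcE j (of h) x) = pcE j (of (g * h) : CoprodI G) x :=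
  DFunLike.congr_fun (pcE_comp hij g h) x

/-- the partial conjugations of the factor `G j` with the elements of `G i`, `i ≠ j` -/
noncomputable def pc {i j : ι} (hij : i ≠ j) : G i →* MulAut (CoprodI G) where
  toFun g :=
    { toFun := pcE j (of g)
      invFun := pcE j (of g⁻¹)
      left_inv := fun x => by
        rw [pcE_comp_apply hij, inv_mul_cancel, map_one, pcE_one]; rfl
      right_inv := fun x => by
        rw [pcE_comp_apply hij, mul_inv_cancel, map_one, pcE_one]; rfl
      map_mul' := fun x y => map_mul _ x y }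
  map_one' := by
    ext x
    change pcE j (of (1 : G i)) x = x
    rw [map_one, pcE_one]; rfl
  map_mul' g h := by
    ext x
    exact (pcE_comp_apply hij g h x).symm

theorem pc_apply {i j : ι} (hij : i ≠ j) (g : G i) (x : CoprodI G) : pc hij g x = pcE j (of g) x := rfl

theorem pc_self {i j : ι} (hij : i ≠ j) (g : G i) (x : G j) :
    pc hij g (of x) = (of g)⁻¹ * of x * of g := pcE_self _ _ _

theorem pc_ne {i j l : ι} (hij : i ≠ j) (h : l ≠ j) (g : G i) (x : G l) :
    pc hij g (of x) = of x := pcE_ne h _ _

/-- automorphisms of free products are determined by the values on the factors -/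
theorem aut_ext {φ ψ : MulAut (CoprodI G)} (h : ∀ (l : ι) (x : G l), φ (of x) = ψ (of x)) : φ = ψ := by
  have h1 : φ.toMonoidHom = ψ.toMonoidHom := by
    apply CoprodI.ext_hom
    intro l
    ext1 x
    exact h l x
  ext x
  exact DFunLike.congr_fun h1 x

/-- the endomorphism given by automorphisms of the factors -/
noncomputable def faE (θ : ∀ i, MulAut (G i)) : CoprodI G →* CoprodI G :=
  CoprodI.lift fun l => of.comp (θ l).toMonoidHom

theorem faE_of (θ : ∀ i, MulAut (G i)) {l : ι} (x : G l) : faE θ (of x) = of (θ l x) := by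
  rw [faE, CoprodI.lift_of]; rfl

theorem faE_comp (θ θ' : ∀ i, MulAut (G i)) : (faE θ).comp (faE θ') = faE (θ * θ') := by
  apply CoprodI.ext_hom
  intro l
  ext1 x
  change faE θ (faE θ' (of x)) = faE (θ * θ') (of x)
  rw [faE_of, faE_of, faE_of]
  rfl

theorem faE_comp_apply (θ θ' : ∀ i, MulAut (G i)) (x : CoprodI G) :
    faE θ (faE θ' x) = faE (θ * θ') x := DFunLike.congr_fun (faE_comp θ θ') x

theorem faE_one : faE (1 : ∀ i, MulAut (G i)) = MonoidHom.id _ := by
  apply CoprodI.ext_hom
  intro l
  ext1 x
  exact faE_of _ _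

/-- the automorphisms of the factors as automorphisms of the free product -/
noncomputable def fa : (∀ i, MulAut (G i)) →* MulAut (CoprodI G) where
  toFun θ :=
    { toFun := faE θ
      invFun := faE θ⁻¹
      left_inv := fun x => by rw [faE_comp_apply, inv_mul_cancel, faE_one]; rfl
      right_inv := fun x => by rw [faE_comp_apply, mul_inv_cancel, faE_one]; rfl
      map_mul' := fun x y => map_mul _ x y }
  map_one' := by
    ext x
    change faE 1 x = x
    rw [faE_one]; rfl
  map_mul' θ θ' := by
    ext x
    exact (faE_comp_apply θ θ' x).symm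

theorem fa_of (θ : ∀ i, MulAut (G i)) {l : ι} (x : G l) : fa θ (of x) = of (θ l x) := faE_of θ x

theorem fa_pc {i j : ι} (hij : i ≠ j) (θ : ∀ i, MulAut (G i)) (g : G i) :
    fa θ * pc hij g * (fa θ)⁻¹ = pc hij (θ i g) := by
  rw [mul_inv_eq_iff_eq_mul]
  apply aut_ext
  intro l x
  rw [MulAut.mul_apply, MulAut.mul_apply, fa_of]
  by_cases hl : l = j
  · subst hl
    rw [pc_self, pc_self, map_mul, map_mul, map_inv, fa_of, fa_of]
  · rw [pc_ne _ hl, pc_ne _ hl, fa_of]

/-! ## the holomorph and the retractions -/

/-- the holomorph of `P` -/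
abbrev Hol (P : Type) [Group P] : Type := P ⋊[MonoidHom.id (MulAut P)] MulAut P

open Classical in
/-- the retraction to the factor `G k` -/
noncomputable def toF (k : ι) : CoprodI G →* G k :=
  CoprodI.lift fun i => if h : i = k then h ▸ MonoidHom.id _ else 1

theorem toF_self (k : ι) (g : G k) : toF k (of g) = g := by
  rw [toF, CoprodI.lift_of, dif_pos rfl]
  rfl

theorem toF_ne {i k : ι} (h : i ≠ k) (g : G i) : toF k (of g) = 1 := by
  rw [toF, CoprodI.lift_of, dif_neg h]
  rfl

theorem toF_fa (k : ι) (θ : ∀ i, MulAut (G i)) (x : CoprodI G) :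
    toF k (fa θ x) = θ k (toF k x) := by
  have h1 : (toF k).comp (fa θ).toMonoidHom = (θ k).toMonoidHom.comp (toF k) := by
    apply CoprodI.ext_hom
    intro l
    ext1 x
    change toF k (fa θ (of x)) = θ k (toF k (of x))
    rw [fa_of]
    by_cases h : l = k
    · subst h
      rw [toF_self, toF_self]
    · rw [toF_ne h, toF_ne h, map_one]
  exact DFunLike.congr_fun h1 x

end Pool.Agent.X265.AFP
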