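import Pool.Agent.X265.AFP.Any

/-!
# Groups of automorphisms of free products: the statements
-/

set_option autoImplicit false

namespace Pool.Agent.X265.AFP

open Monoid
open Pool.Agent.Y110.FJ Pool.Agent.X176.FJ Pool.Agent.X201.FJ

section

variable {ι : Type}

/-- the free product of the groups `G i` -/
def FP (G : ι → Type) [∀ i, Group (G i)] : Type := CoprodI G

variable {G : ι → Type} [∀ i, Group (G i)]

instance : Group (FP G) := CoprodI.instGroup G

/-- the inclusions of the factors -/
def inF {i : ι} : G i →* FP G := CoprodI.of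

/-- the automorphisms of the free product -/
abbrev AutFP (G : ι → Type) [∀ i, Group (G i)] : Type := MulAut (FP G)

/-- `φ` maps `x` to `u θ(x) u⁻¹` for all `x` in the factor `G i`, where `θ : G i ≃* G j`. -/
def TwistOn (φ : AutFP G) {i j : ι} (u : FP G) (θ : G i ≃* G j) : Prop :=
  ∀ x : G i, φ (inF x) = u * inF (θ x) * u⁻¹

/-- `φ` is a partial conjugation: for some `g ∈ G i` and `j ≠ i` it maps `x` to `g x g⁻¹` for `x ∈ G j` and it
is the identity on all other factors. -/
def IsPartialConj (φ : AutFP G) : Prop :=
  ∃ (i j : ι) (g : G i), i ≠ j ∧ TwistOn φ (inF g) (MulEquiv.refl (G j)) ∧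
    ∀ l, l ≠ j → TwistOn φ 1 (MulEquiv.refl (G l))

/-- `φ` is given by automorphisms of the factors. -/
def IsFactorAut (φ : AutFP G) : Prop := ∀ l, ∃ θ : G l ≃* G l, TwistOn φ 1 θ

/-- the group generated by the partial conjugations and the automorphisms of the factors -/
def AutGen (G : ι → Type) [∀ i, Group (G i)] : Subgroup (AutFP G) :=
  Subgroup.closure {φ | IsPartialConj φ ∨ IsFactorAut φ}

/-- the inner automorphisms of the free product -/
def innF (G : ι → Type) [∀ i, Group (G i)] : Subgroup (AutFP G) := MulAut.conj.range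

/-- `H` contains the inner automorphisms, and its elements map every factor to a conjugate of a factor. -/
def Adm (H : Subgroup (AutFP G)) : Prop :=
  innF G ≤ H ∧ ∀ φ ∈ H, ∀ i, ∃ (j : ι) (u : FP G) (θ : G i ≃* G j), TwistOn φ u θ

/-- The kernel of the homomorphism `π` is the group of the inner automorphisms. -/
def KerInn (H : Subgroup (AutFP G)) {Q : Type} [Group Q] (π : H →* Q) : Prop :=
  ∀ φ : H, π φ = 1 ↔ φ.1 ∈ innF G

theorem autGen_eq {G : Fin 3 → Type} [∀ i, Group (G i)] : AutGen G = Aut3 G := by
  apply le_antisymm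
  · refine (Subgroup.closure_le (G := AutFP G) (K := Aut3 G)).2 ?_
    rintro φ (⟨i, j, g, hij, h1, h2⟩ | h)
    · have e : φ = pc hij g⁻¹ := by
        apply aut_ext
        intro l x
        by_cases hl : l = j
        · subst hl
          rw [pc_self, map_inv, inv_inv]
          exact h1 x
        · rw [pc_ne _ hl]
          refine (h2 l hl x).trans ?_
          rw [one_mul, inv_one, mul_one]; rfl
      rw [e]
      exact pc_mem hij _
    · choose θ h using h
      have e : φ = fa θ := by
        apply aut_ext
        intro l x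
        rw [fa_of]
        refine (h l x).trans ?_
        rw [one_mul, inv_one, mul_one]; rfl
      rw [e]
      exact fa_mem θ
  · refine (Subgroup.closure_le (G := MulAut (CoprodI G)) (K := AutGen G)).2 ?_
    rintro φ (⟨i, j, h, g, rfl⟩ | ⟨θ, rfl⟩)
    · refine Subgroup.subset_closure (Or.inl ⟨i, j, g⁻¹, h, fun x => ?_, fun l hl x => ?_⟩)
      · change pc h g (CoprodI.of x) = CoprodI.of g⁻¹ * CoprodI.of x * (CoprodI.of g⁻¹)⁻¹
        rw [pc_self, map_inv, inv_inv]
      · change pc h g (CoprodI.of x) = 1 * CoprodI.of x * (1 : CoprodI G)⁻¹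
        rw [pc_ne _ hl, one_mul, inv_one, mul_one]
    · refine Subgroup.subset_closure (Or.inr fun l => ⟨θ l, fun x => ?_⟩)
      change fa θ (CoprodI.of x) = 1 * CoprodI.of (θ l x) * (1 : CoprodI G)⁻¹
      rw [fa_of, one_mul, inv_one, mul_one]

end

/-- For three nontrivial groups the group `AutGen G` is in `C` if and only if the holomorphs are. -/
def ThreeFactors (C : ∀ (G : Type) [Group G], Prop) : Prop :=
  ∀ (G : Fin 3 → Type) [∀ i, Group (G i)] [∀ i, Nontrivial (G i)],
    C (AutGen G) ↔ ∀ i, C (Hol (G i))

/-- Let `G i`, `i ∈ ι`, be at least two nontrivial groups such that all semidirect products of `G i` with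
the infinite cyclic group are in `C`, and let `H` be a group of automorphisms of the free product of the
`G i` which contains the inner automorphisms and maps every factor to a conjugate of a factor. If `H / Inn`
embeds in a group `Q` in `C` then `H` is in `C`. -/
def AnyFactors (C : ∀ (G : Type) [Group G], Prop) : Prop :=
  ∀ (ι : Type) [Nontrivial ι] (G : ι → Type) [∀ i, Group (G i)] [∀ i, Nontrivial (G i)],
    (∀ (i : ι) (θ : MulAut (G i)), C (CycExt (G i) θ)) → ∀ H : Subgroup (AutFP G), Adm H →
    ∀ (Q : Type) [Group Q] (π : H →* Q), KerInn H π → C Q → C H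

theorem three_factors {C : ∀ (G : Type) [Group G], Prop} (hC : ClosedE C) (hFK : FrKer C) :
    ThreeFactors C := by
  intro G _ _
  rw [autGen_eq]
  exact c_aut3 hC hFK

theorem any_factors {C : ∀ (G : Type) [Group G], Prop} (hC : ClosedE C) (hFK : FrKer C) :
    AnyFactors C := by
  intro ι _ G _ _ h3 H h1 Q _ π hπ hQ
  refine c_perm hC hFK H (fun u => h1.1 ⟨u, rfl⟩) (fun φ hφ => h1.2 φ hφ) ?_ h3
  refine hC.base.of_injective _ _ (QuotientGroup.lift (InnIn (G := G) H) π (by
    intro φ hφ
    exact (hπ φ).2 hφ)) ?_ hQ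
  rw [injective_iff_map_eq_one]
  intro q
  induction q using QuotientGroup.induction_on with
  | H φ =>
    intro h
    rw [QuotientGroup.lift_mk] at h
    rw [QuotientGroup.eq_one_iff]
    exact (hπ φ).1 h

end Pool.Agent.X265.AFP
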