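import Pool.Agent.X265.AFP.Pc

/-!
# Free products of three groups
-/

set_option autoImplicit false

namespace Pool.Agent.X265.AFP

open Monoid Monoid.CoprodI

variable {G : Fin 3 → Type} [∀ i, Group (G i)]

theorem nx (i : Fin 3) : i ≠ i + 1 := by
  revert i; decide

theorem nx2 (i : Fin 3) : i ≠ i + 2 := by
  revert i; decide

theorem nx21 (i : Fin 3) : i + 2 ≠ i + 1 := by
  revert i; decide

/-- the partial conjugations of `G (i + 1)` with the elements of `G i`, for all `i` -/
noncomputable def Th : CoprodI G →* MulAut (CoprodI G) := CoprodI.lift fun i => pc (nx i)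

theorem Th_of {i : Fin 3} (g : G i) : (Th (of g) : MulAut (CoprodI G)) = pc (nx i) g := by
  rw [Th, CoprodI.lift_of]

theorem Th_fa (θ : ∀ i, MulAut (G i)) (x : CoprodI G) :
    Th (fa θ x) = fa θ * Th x * (fa θ)⁻¹ := by
  have h1 : Th.comp (fa θ).toMonoidHom = (MulAut.conj (fa θ)).toMonoidHom.comp (Th (G := G)) := by
    apply CoprodI.ext_hom
    intro l
    ext1 x
    change Th (fa θ (of x)) = fa θ * Th (of x) * (fa θ)⁻¹
    rw [fa_of, Th_of, Th_of, fa_pc]
  exact DFunLike.congr_fun h1 x

/-- the semidirect product of the free product and the automorphisms of the factors -/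
abbrev DG (G : Fin 3 → Type) [∀ i, Group (G i)] : Type :=
  CoprodI G ⋊[fa (G := G)] (∀ i, MulAut (G i))

/-- the action on the free product -/
noncomputable def Psi : DG G →* MulAut (CoprodI G) :=
  SemidirectProduct.lift Th fa (by
    intro θ
    exact MonoidHom.ext fun x => Th_fa θ x)

theorem Psi_apply (d : DG G) : Psi d = Th d.left * fa d.right := rfl

/-- frames -/
def IsFr (φ : MulAut (CoprodI G)) (U : Fin 3 → CoprodI G) : Prop :=
  ∀ (l : Fin 3) (x : G l), φ (of x) = U l * of x * (U l)⁻¹

/-- the vertex `i` is between the vertices `j` and `k` -/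
def St (U : Fin 3 → CoprodI G) (i j k : Fin 3) : Prop :=
  i ≠ j ∧ i ≠ k ∧ j ≠ k ∧ ∃ (a : G j) (b : G i) (c : G k) (x : G i), x ≠ 1 ∧
    Red j i ((U j * of a)⁻¹ * (U i * of b)) ∧
    Red i k ((of x)⁻¹ * ((U i * of b)⁻¹ * (U k * of c)))

theorem St.symm {U : Fin 3 → CoprodI G} {i j k : Fin 3} (h : St U i j k) : St U i k j := by
  obtain ⟨h1, h2, h3, a, b, c, x, hx, hp, hq⟩ := h
  refine ⟨h2, h1, h3.symm, c, b * x, a, x⁻¹, inv_ne_one.2 hx, ?_, ?_⟩
  · have := hq.inv
    convert this using 1
    simp only [map_mul]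
    group
  · have := hp.inv
    convert this using 1
    simp only [map_mul, map_inv]
    group

theorem St.nred {U : Fin 3 → CoprodI G} {i j k : Fin 3} {a : G j} {b : G i} {c : G k} {x : G i}
    (h1 : i ≠ j) (h2 : i ≠ k) (hx : x ≠ 1) (hp : Red j i ((U j * of a)⁻¹ * (U i * of b)))
    (hq : Red i k ((of x)⁻¹ * ((U i * of b)⁻¹ * (U k * of c)))) :
    NRed j k ((U j * of a)⁻¹ * (U k * of c)) := by
  have := glue h1.symm h2 hp hx hq
  convert this using 1
  group

/-- moving an end -/
theorem St.move_k {U U' : Fin 3 → CoprodI G} {i j k : Fin 3} (h : St U i j k) {g : G j} (hg : g ≠ 1)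
    (hU : U' k = U j * of g * (U j)⁻¹ * U k) (hU' : ∀ l, l ≠ k → U' l = U l) : St U' j i k := by
  obtain ⟨h1, h2, h3, a, b, c, x, hx, hp, hq⟩ := h
  have hn := St.nred h1 h2 hx hp hq
  refine ⟨h1.symm, h3, h2, b, a, c, a⁻¹ * g * a, ?_, ?_, ?_⟩
  · intro h0
    apply hg
    have : g = a * (a⁻¹ * g * a) * a⁻¹ := by group
    rw [this, h0]
    group
  · rw [hU' i h2, hU' j h3]
    have := hp.inv
    convert this using 1
    group
  · rw [hU, hU' j h3]
    convert hn.red using 1
    simp only [map_mul, map_inv]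
    group

/-- moving the middle vertex -/
theorem St.move_i {U U' : Fin 3 → CoprodI G} {i j k : Fin 3} (h : St U i j k) {g : G j} (hg : g ≠ 1)
    (hU : U' i = U j * of g * (U j)⁻¹ * U i) (hU' : ∀ l, l ≠ i → U' l = U l) : St U' j k i := by
  obtain ⟨h1, h2, h3, a, b, c, x, hx, hp, hq⟩ := h
  have hn := St.nred h1 h2 hx hp hq
  refine ⟨h3, h1.symm, h2.symm, c, a, b, a⁻¹ * g * a, ?_, ?_, ?_⟩
  · intro h0
    apply hg
    have : g = a * (a⁻¹ * g * a) * a⁻¹ := by group
    rw [this, h0]
    group
  · rw [hU' k h2.symm, hU' j h1.symm]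
    have := hn.red.inv
    convert this using 1
    group
  · rw [hU, hU' j h1.symm]
    convert hp using 1
    simp only [map_mul, map_inv]
    group

/-- the frame of a product -/
theorem IsFr.mul {φ : MulAut (CoprodI G)} {U : Fin 3 → CoprodI G} (h : IsFr φ U) {i : Fin 3} (g : G i) :
    IsFr (φ * (pc (nx i) g)⁻¹)
      (Function.update U (i + 1) (U i * of g * (U i)⁻¹ * U (i + 1))) := by
  intro l x
  rw [← map_inv, MulAut.mul_apply]
  by_cases hl : l = i + 1
  · subst hl
    rw [pc_self, Function.update_self, map_mul, map_mul, map_inv φ, h, h, map_inv]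
    group
  · rw [pc_ne _ hl, Function.update_of_ne hl, h]

/-- the frames of words -/
theorem exists_fr (w : Word G) (l : Fin 3) (hl : w.fstIdx = some l) :
    ∃ U, IsFr (Th w.prod)⁻¹ U ∧ ∃ j k, St U l j k := by
  induction w using Word.consRecOn generalizing l with
  | empty => cases hl
  | cons i m w h1 h2 ih =>
    rw [Word.fstIdx_cons] at hl
    obtain rfl := Option.some.inj hl
    have e : (Th (Word.cons m w h1 h2).prod)⁻¹ = (Th w.prod)⁻¹ * (pc (nx i) m)⁻¹ := by
      rw [Word.prod_cons, map_mul, Th_of, mul_inv_rev]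
    rw [e]
    by_cases hw : w = Word.empty
    · subst hw
      rw [Word.prod_empty, map_one, inv_one]
      have h0 : IsFr (1 : MulAut (CoprodI G)) (fun _ => 1) := fun l x => by
        rw [MulAut.one_apply, one_mul, inv_one, mul_one]
      refine ⟨_, h0.mul m, i + 2, i + 1, nx2 i, nx i, nx21 i, 1, 1, 1, m, h2, ?_, ?_⟩
      · rw [Function.update_of_ne (nx21 i), Function.update_of_ne (nx i)]
        convert Red.one using 1
        simp
      · rw [Function.update_self, Function.update_of_ne (nx i)]
        convert Red.one using 1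
        simp
    · obtain ⟨l', hl'⟩ : ∃ l', w.fstIdx = some l' := by
        rw [← Option.isSome_iff_exists, Word.fstIdx, Option.isSome_map, List.isSome_head?]
        simp only [List.isEmpty_eq_false_iff, ne_eq, Bool.not_eq_true', Bool.not_eq_eq_eq_not,
          Bool.not_true]
        intro h0
        exact hw (Word.ext h0)
      obtain ⟨U, hU, j, k, hst⟩ := ih l' hl'
      have hil : l' ≠ i := by
        rintro rfl
        exact h1 hl'
      obtain ⟨k', hst'⟩ : ∃ k', St U l' i k' := by
        have hc : i = j ∨ i = k := by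
          obtain ⟨ha, hb, hc, _⟩ := hst
          revert ha hb hc hil
          clear * -
          revert i j k l'
          decide
        rcases hc with rfl | rfl
        · exact ⟨k, hst⟩
        · exact ⟨j, hst.symm⟩
      refine ⟨_, hU.mul m, ?_⟩
      have hc : i + 1 = k' ∨ i + 1 = l' := by
        obtain ⟨ha, hb, hc, _⟩ := hst'
        revert ha hb hc
        clear * -
        revert i k' l'
        decide
      rcases hc with hc | hc
      · subst hc
        exact ⟨_, _, hst'.move_k h2 (Function.update_self _ _ _)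
          (fun l hl => Function.update_of_ne hl _ _)⟩
      · subst hc
        exact ⟨_, _, hst'.move_i h2 (Function.update_self _ _ _)
          (fun l hl => Function.update_of_ne hl _ _)⟩

theorem not_inner {U : Fin 3 → CoprodI G} {i j k : Fin 3} (h : St U i j k) (z : CoprodI G)
    (t : ∀ l, G l) (hU : ∀ l, U l = z * of (t l)) : False := by
  obtain ⟨h1, h2, h3, a, b, c, x, hx, hp, hq⟩ := h
  have hn := St.nred h1 h2 hx hp hq
  refine not_mem_two h3 hn (a⁻¹ * (t j)⁻¹) (t k * c) ?_
  rw [hU, hU]
  simp only [map_mul, map_inv]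
  group

/-- **the action is faithful, modulo inner automorphisms** -/
theorem psi_inner [∀ i, Nontrivial (G i)] (d : DG G) (u : CoprodI G) (h : Psi d = MulAut.conj u) :
    d = 1 ∧ u = 1 := by
  obtain ⟨w, hw⟩ := exists_word d.left
  have hne : ∀ l : Fin 3, ∃ x : G l, x ≠ 1 := fun l => exists_ne 1
  rw [Psi_apply] at h
  by_cases he : w = Word.empty
  · have h1 : d.left = 1 := by rw [← hw, he, Word.prod_empty]
    rw [h1, map_one, one_mul] at h
    have h2 : ∀ (l : Fin 3) (x : G l), of (d.right l x) = u * of x * u⁻¹ := by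
      intro l x
      rw [← fa_of, h]
      rfl
    have h3 : ∀ l : Fin 3, ∃ z : G l, u⁻¹ = of z := by
      intro l
      obtain ⟨x, hx⟩ := hne l
      refine self_norm (y := d.right l x) hx ?_
      rw [h2, inv_inv]
    have h4 : u⁻¹ = 1 := eq_one_of_two (show (0 : Fin 3) ≠ 1 by decide) (h3 0) (h3 1)
    have h5 : u = 1 := inv_eq_one.1 h4
    refine ⟨?_, h5⟩
    apply SemidirectProduct.ext
    · exact h1
    · funext l
      ext x
      have h6 := h2 l x
      rw [h5, one_mul, inv_one, mul_one] at h6
      exact of_inj h6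
  · exfalso
    obtain ⟨l, hl⟩ : ∃ l, w.fstIdx = some l := by
      rw [← Option.isSome_iff_exists, Word.fstIdx, Option.isSome_map, List.isSome_head?]
      simp only [List.isEmpty_eq_false_iff, ne_eq, Bool.not_eq_true', Bool.not_eq_eq_eq_not,
        Bool.not_true]
      intro h0
      exact he (Word.ext h0)
    obtain ⟨U, hU, j, k, hst⟩ := exists_fr w l hl
    have h2 : (Th w.prod)⁻¹ = fa d.right * (MulAut.conj u)⁻¹ := by
      rw [hw, ← h]
      group
    rw [h2] at hU
    have h3 : ∀ l : Fin 3, ∃ t : G l, U l = (fa d.right u)⁻¹ * of t := by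
      intro l
      obtain ⟨x, hx⟩ := hne l
      have h4 := hU l x
      have h5 : (fa d.right * (MulAut.conj u)⁻¹) (of x) =
          (fa d.right u)⁻¹ * of (d.right l x) * fa d.right u := by
        rw [MulAut.mul_apply, MulAut.conj_inv_apply, map_mul, map_mul, map_inv, fa_of]
      rw [h5] at h4
      obtain ⟨z, hz⟩ := self_norm (v := (fa d.right u * U l)⁻¹) (y := d.right l x) hx (by
        have : (fa d.right u * U l)⁻¹⁻¹ * of x * (fa d.right u * U l)⁻¹ =
          fa d.right u * (U l * of x * (U l)⁻¹) * (fa d.right u)⁻¹ := by group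
        rw [this, ← h4]
        group)
      refine ⟨z⁻¹, ?_⟩
      rw [map_inv, ← hz]
      group
    choose t ht using h3
    exact not_inner hst _ t ht

end Pool.Agent.X265.AFP
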