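import Mathlib

/-!
# Reduced words in free products
-/

set_option autoImplicit false

namespace Pool.Agent.X265.AFP

open Monoid Monoid.CoprodI

variable {ι : Type} {G : ι → Type} [∀ i, Group (G i)]

/-- reduced words are determined by their values -/
theorem word_inj {w w' : Word G} (h : w.prod = w'.prod) : w = w' := by
  classical
  have h1 := congrArg (Word.equiv (M := G)) h
  have h2 : ∀ w : Word G, Word.equiv (M := G) w.prod = w := fun w => (Word.equiv (M := G)).right_inv w
  rwa [h2, h2] at h1

theorem exists_word (x : CoprodI G) : ∃ w : Word G, w.prod = x := by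
  classical
  exact ⟨Word.equiv x, (Word.equiv (M := G)).left_inv x⟩

theorem list_eq {a b c d : ι} {m : NeWord G a b} {n : NeWord G c d} (h : m.prod = n.prod) :
    m.toList = n.toList := congrArg Word.toList (word_inj h)

theorem head_eq {a b c d : ι} {m : NeWord G a b} {n : NeWord G c d} (h : m.prod = n.prod) :
    a = c ∧ b = d := by
  have h1 := list_eq h
  have h2 := m.toList_head?
  have h3 := n.toList_head?
  have h4 := m.toList_getLast?
  have h5 := n.toList_getLast?
  rw [h1, h3] at h2
  rw [h1, h5] at h4
  exact ⟨(congrArg Sigma.fst (Option.some.inj h2)).symm, (congrArg Sigma.fst (Option.some.inj h4)).symm⟩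

theorem prod_ne_one {a b : ι} (m : NeWord G a b) : m.prod ≠ 1 := by
  intro h
  have h1 : m.toWord = Word.empty := word_inj h
  exact m.toList_ne_nil (congrArg Word.toList h1)

/-- `1`, or a reduced word whose first letter is not in `G a` and whose last letter is not in `G b` -/
def Red (a b : ι) (x : CoprodI G) : Prop :=
  x = 1 ∨ ∃ (c d : ι) (n : NeWord G c d), c ≠ a ∧ d ≠ b ∧ n.prod = x

/-- a nonempty reduced word whose first letter is not in `G a` and whose last letter is not in `G b` -/
def NRed (a b : ι) (x : CoprodI G) : Prop :=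
  ∃ (c d : ι) (n : NeWord G c d), c ≠ a ∧ d ≠ b ∧ n.prod = x

theorem Red.one {a b : ι} : Red a b (1 : CoprodI G) := Or.inl rfl

theorem NRed.red {a b : ι} {x : CoprodI G} (h : NRed a b x) : Red a b x := Or.inr h

theorem Red.inv {a b : ι} {x : CoprodI G} (h : Red a b x) : Red b a x⁻¹ := by
  rcases h with rfl | ⟨c, d, n, hc, hd, rfl⟩
  · rw [inv_one]
    exact Red.one
  · exact Or.inr ⟨d, c, n.inv, hd, hc, n.inv_prod⟩

/-- gluing -/
theorem glue {a i b : ι} (hai : a ≠ i) (hib : i ≠ b) {p q : CoprodI G} (hp : Red a i p)
    {x : G i} (hx : x ≠ 1) (hq : Red i b q) : NRed a b (p * of x * q) := by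
  rcases hp with rfl | ⟨c, d, n, hc, hd, rfl⟩
  · rcases hq with rfl | ⟨c', d', n', hc', hd', rfl⟩
    · exact ⟨i, i, NeWord.singleton x hx, hai.symm, hib, by rw [NeWord.prod_singleton, one_mul, mul_one]⟩
    · refine ⟨i, d', NeWord.append (NeWord.singleton x hx) hc'.symm n', hai.symm, hd', ?_⟩
      rw [NeWord.append_prod, NeWord.prod_singleton, one_mul]
  · rcases hq with rfl | ⟨c', d', n', hc', hd', rfl⟩
    · refine ⟨c, i, NeWord.append n hd (NeWord.singleton x hx), hc, hib, ?_⟩
      rw [NeWord.append_prod, NeWord.prod_singleton, mul_one]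
    · refine ⟨c, d', NeWord.append (NeWord.append n hd (NeWord.singleton x hx)) hc'.symm n', hc, hd', ?_⟩
      rw [NeWord.append_prod, NeWord.append_prod, NeWord.prod_singleton]

/-- elements which are not in the product of two factors -/
theorem not_mem_two {j k : ι} (hjk : j ≠ k) {y : CoprodI G} (hy : NRed j k y) (a : G j) (b : G k) :
    y ≠ of a * of b := by
  obtain ⟨c, d, n, hc, hd, rfl⟩ := hy
  intro h
  by_cases ha : a = 1
  · subst ha
    rw [map_one, one_mul] at h
    by_cases hb : b = 1
    · subst hb
      rw [map_one] at h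
      exact prod_ne_one n h
    · rw [← NeWord.prod_singleton b hb] at h
      exact hd (head_eq h).2
  · by_cases hb : b = 1
    · subst hb
      rw [map_one, mul_one, ← NeWord.prod_singleton a ha] at h
      exact hc (head_eq h).1
    · have e : of a * of b = (NeWord.append (NeWord.singleton a ha) hjk (NeWord.singleton b hb)).prod := by
        rw [NeWord.append_prod, NeWord.prod_singleton, NeWord.prod_singleton]
      rw [e] at h
      exact hc (head_eq h).1

/-- splitting off the first letter -/
theorem split_left (k : ι) (v : CoprodI G) : ∃ (g : G k) (v' : CoprodI G), v = of g * v' ∧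
    (v' = 1 ∨ ∃ (c d : ι) (n : NeWord G c d), c ≠ k ∧ n.prod = v') := by
  classical
  have key : ∀ w : Word G, w.fstIdx ≠ some k → w.prod = 1 ∨
      ∃ (c d : ι) (n : NeWord G c d), c ≠ k ∧ n.prod = w.prod := by
    intro w hw
    by_cases h : w = Word.empty
    · left
      rw [h, Word.prod_empty]
    · obtain ⟨c, d, n, hn⟩ := NeWord.of_word w h
      refine Or.inr ⟨c, d, n, ?_, congrArg Word.prod hn⟩
      rintro rfl
      apply hw
      rw [← hn]
      have h2 := n.toList_head?
      change n.toList.head?.map Sigma.fst = some c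
      rw [h2]
      rfl
  obtain ⟨w, rfl⟩ := exists_word v
  induction w using Word.consRecOn with
  | empty => exact ⟨1, 1, by rw [Word.prod_empty, map_one, one_mul], Or.inl rfl⟩
  | cons i m w h1 h2 _ =>
    by_cases hi : i = k
    · subst hi
      exact ⟨m, w.prod, Word.prod_cons _ _ _ _ _, key w h1⟩
    · refine ⟨1, (Word.cons m w h1 h2).prod, by rw [map_one, one_mul], key _ ?_⟩
      rw [Word.fstIdx_cons]
      intro h
      exact hi (Option.some.inj h)

/-- the factors are equal to their normalizers, in a strong form -/
theorem self_norm {k : ι} {v : CoprodI G} {x y : G k} (hx : x ≠ 1) (h : v⁻¹ * of x * v = of y) :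
    ∃ z : G k, v = of z := by
  obtain ⟨g, v', rfl, rfl | ⟨c, d, n, hc, rfl⟩⟩ := split_left k v
  · exact ⟨g, by rw [mul_one]⟩
  · exfalso
    have hx' : g⁻¹ * x * g ≠ 1 := by
      intro h0
      apply hx
      have : x = g * (g⁻¹ * x * g) * g⁻¹ := by group
      rw [this, h0]
      group
    have e : (NeWord.append (NeWord.append n.inv hc (NeWord.singleton _ hx')) hc.symm n).prod = of y := by
      rw [NeWord.append_prod, NeWord.append_prod, NeWord.prod_singleton, NeWord.inv_prod, ← h]
      simp only [map_mul, map_inv]
      group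
    by_cases hy : y = 1
    · subst hy
      rw [map_one] at e
      exact prod_ne_one _ e
    · rw [← NeWord.prod_singleton y hy] at e
      have h3 := congrArg List.length (list_eq e)
      have h4 : 0 < n.toList.length := List.length_pos_iff.2 n.toList_ne_nil
      have h5 : 0 < n.inv.toList.length := List.length_pos_iff.2 n.inv.toList_ne_nil
      simp only [NeWord.toList, List.length_append, List.length_cons, List.length_nil] at h3
      omega

/-- the element normalizes two factors -/
theorem eq_one_of_two {j k : ι} (hjk : j ≠ k) {v : CoprodI G} (hj : ∃ z : G j, v = of z)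
    (hk : ∃ z : G k, v = of z) : v = 1 := by
  obtain ⟨z, rfl⟩ := hj
  obtain ⟨z', h⟩ := hk
  by_cases hz : z = 1
  · rw [hz, map_one]
  · exfalso
    by_cases hz' : z' = 1
    · subst hz'
      rw [map_one, ← NeWord.prod_singleton z hz] at h
      exact prod_ne_one _ h
    · rw [← NeWord.prod_singleton z hz, ← NeWord.prod_singleton z' hz'] at h
      exact hjk (head_eq h).1

theorem of_inj {k : ι} {x y : G k} (h : (of x : CoprodI G) = of y) : x = y :=
  CoprodI.of_injective k h

end Pool.Agent.X265.AFP
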